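import Pool.Agent.Saxl2.Q2

set_option autoImplicit false

namespace Pool.Agent.Results.MP_2a22ca_al.ExteriorSquare

open Finset Equiv

/-- Full answer to Q2: for every `k ≥ 1`, with `n = k (k + 1) / 2`, the irreducible characters of
`S_n` that are not constituents of the exterior square of the staircase character are exactly
`[n]`, `[n-1,1]`, `[n-2,2]`, together with `[1^n]` when `k` is not `2` modulo `4`, and together with
`[2^3]` when `k = 3`. Partitions of `n` are weakly decreasing functions `Fin n → ℕ` with sum `n`, and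
`χ` is given by the Jacobi–Trudi formula, as in the frozen statement of Q1. -/
theorem result :
  ∀ k : ℕ, 1 ≤ k → ∀ n : ℕ, n = k * (k + 1) / 2 →
  ∀ χ : (Fin n → ℕ) → Equiv.Perm (Fin n) → ℤ,
    (∀ (lam : Fin n → ℕ) (g : Equiv.Perm (Fin n)),
      χ lam g = ∑ σ : Equiv.Perm (Fin n), ((Equiv.Perm.sign σ : ℤˣ) : ℤ) *
        ((Finset.univ.filter (fun f : Fin n → Fin n =>
            (∀ i : Fin n, (((Finset.univ.filter (fun x : Fin n => f x = i)).card : ℕ) : ℤ)
                = ((lam i : ℕ) : ℤ) - ((i.val : ℕ) : ℤ) + (((σ i).val : ℕ) : ℤ)) ∧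
            ∀ x : Fin n, f (g x) = f x)).card : ℤ)) →
    ∀ lam : Fin n → ℕ, Antitone lam → ∑ i, lam i = n →
      (0 < ∑ g : Equiv.Perm (Fin n),
          (χ (fun i => k - i.val) g ^ 2 - χ (fun i => k - i.val) (g * g)) * χ lam g
        ↔ ¬ ((lam = fun i => if i.val = 0 then n else 0) ∨
          (lam = fun i => if i.val = 0 then n - 1 else if i.val = 1 then 1 else 0) ∨
          (lam = fun i => if i.val = 0 then n - 2 else if i.val = 1 then 2 else 0) ∨
          (k % 4 ≠ 2 ∧ lam = fun _ => 1) ∨
          (k = 3 ∧ lam = fun i => if i.val < 3 then 2 else 0))) :=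
  Sx.exterior_square

end Pool.Agent.Results.MP_2a22ca_al.ExteriorSquare
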